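import Mathlib
import Pool.Agent.H31.QMat

set_option autoImplicit false
open Module Submodule

namespace Pool.Agent.Results.MP_4d2e3d_co.Counter

/-- A q-matroid on the F-vector space E. -/
structure QMatroid (F E : Type) [Field F] [AddCommGroup E] [Module F E] where
  rho : Submodule F E → ℕ
  le_dim : ∀ V, rho V ≤ finrank F V
  mono : ∀ U V, U ≤ V → rho U ≤ rho V
  submod : ∀ U V, rho (U ⊔ V) + rho (U ⊓ V) ≤ rho U + rho V

/-- M is isomorphic to the q-matroid of a matrix G over K: after an F-linear identification of E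
with F^n, rho V is the K-dimension of the span of the vectors G y, y in V (the rank of G Y_V). -/
def QRep {F E : Type} [Field F] [AddCommGroup E] [Module F E] (K : Type) [Field K] [Algebra F K]
    (M : QMatroid F E) : Prop :=
  ∃ (k n : ℕ) (G : Matrix (Fin k) (Fin n) K) (e : E ≃ₗ[F] (Fin n → F)),
    ∀ V : Submodule F E, M.rho V =
      finrank K (span K ((fun v : E => G.mulVec (fun i => algebraMap F K (e v i))) '' V))

/-- The projectivization matroid of M (ground set the points of the projective space, rank of A
equal to rho of the span of A) is isomorphic to the column matroid of a matrix G over K. -/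
def ProjRep {F E : Type} [Field F] [AddCommGroup E] [Module F E] (K : Type) [Field K]
    (M : QMatroid F E) : Prop :=
  ∃ (k n : ℕ) (G : Matrix (Fin k) (Fin n) K) (e : Projectivization F E ≃ Fin n),
    ∀ A : Set (Projectivization F E), M.rho (⨆ p ∈ A, p.submodule) =
      finrank K (span K (G.col '' (e '' A)))

theorem result : ∃ M : QMatroid (ZMod 2) (Fin 4 → ZMod 2),
    ProjRep (GaloisField 2 3) M ∧ ¬ QRep (GaloisField 2 3) M ∧
      ∀ (K : Type) [Field K] [Algebra (ZMod 2) K], ¬ QRep K M := by
  have key : ∀ (K : Type) [Field K] [Algebra (ZMod 2) K], ¬ QRep K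
      ⟨H31.QMat.rho, H31.QMat.rho_dim, H31.QMat.rho_mono, H31.QMat.rho_sub⟩ := by
    rintro K _ _ ⟨k, n, G, e, h⟩
    refine H31.QMat.not_rep (K := K) (k := k)
      (AddMonoidHom.mk' (fun v => G.mulVec (fun i => algebraMap (ZMod 2) K (e v i))) ?_) h
    intro u v
    rw [← Matrix.mulVec_add]; congr 1; ext i; simp
  refine ⟨_, ?_, key _, key⟩
  have hc : Nat.card (Fin 7) ≤ Nat.card (GaloisField 2 3) := by
    rw [GaloisField.card 2 3 (by norm_num)]; simp
  obtain ⟨τ⟩ : Nonempty (Fin 7 ↪ GaloisField 2 3) := by
    have := Fintype.ofFinite (GaloisField 2 3)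
    exact Function.Embedding.nonempty_of_card_le (by simpa [Nat.card_eq_fintype_card] using hc)
  have : Finite (Projectivization (ZMod 2) (Fin 4 → ZMod 2)) :=
    Finite.of_injective _ Projectivization.submodule_injective
  let e := Finite.equivFin (Projectivization (ZMod 2) (Fin 4 → ZMod 2))
  let G : Matrix (Fin 2) (Fin _) (GaloisField 2 3) :=
    Matrix.of fun i j => (![1, τ (H31.QMat.cls (e.symm j).rep)] : Fin 2 → _) i
  refine ⟨2, _, G, e, fun A => ?_⟩
  refine (H31.QMat.span_rank τ τ.injective A).trans ?_
  have hG : (fun p => G.col (e p)) = fun p => (![1, τ (H31.QMat.cls p.rep)] : Fin 2 → _) := by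
    funext p i
    simp only [G, Matrix.col, Matrix.transpose_apply, Matrix.of_apply, Equiv.symm_apply_apply]
  rw [Set.image_image, hG]

end Pool.Agent.Results.MP_4d2e3d_co.Counter
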